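import Pool.Agent.W931.LC.Props

set_option autoImplicit false
set_option linter.all false

namespace Pool.Agent.W918.LC

open Cardinal Pool.Agent.Helper669.Forcing Pool.Agent.Helper669.K Pool.Agent.Helper669.U
  Pool.Agent.Helper669.V Pool.Agent.W931.KH Pool.Agent.W931.LC

/-- Restrictions of conditions. -/
abbrev Rs (Q : Par) (i : I) : Type := ∀ k : Set.Iic i, Co (Q.mu k) (Q.ka k)

/-- The name given by `W`. -/
def FW (Q : Par) {T : Type} (lev : T → I) (W : Set (Σ x : T, Rs Q (lev x))) (x : T) : Set Q.Cd :=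
  {p | (⟨x, fun k => p k⟩ : Σ x : T, Rs Q (lev x)) ∈ W}

theorem core (h1 : S_FUS) (Q : Par) {T : Type} (lev : T → I)
    (hlev : ∀ i, #{x : T // lev x = i} ≤ Q.ka i) (X : T → Set Q.Cd) (p : Q.Cd) :
    ∃ q ≤ p, ∃ W, q ∈ Sub (FW Q lev W) X ∧ q ∈ Sub X (FW Q lev W) := by
  classical
  obtain ⟨q, hq, hqD⟩ := h1 Q (fun i => {x : T // lev x = i}) hlev
    (fun i x => meets (X x.1) ∪ fnot (meets (X x.1)))
    (by
      intro i x p hp p' hp'
      rcases hp with hp | hp
      · exact Or.inl (down_meets _ _ hp _ hp')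
      · exact Or.inr (down_fnot _ _ hp _ hp'))
    (by
      intro i x p
      by_cases h : ∃ p' ≤ p, p' ∈ meets (X x.1)
      · obtain ⟨p', hp', h'⟩ := h
        exact ⟨p', hp', Or.inl h'⟩
      · exact ⟨p, le_rfl, Or.inr fun p' hp' h' => h ⟨p', hp', h'⟩⟩) p
  refine ⟨q, hq, {z | ∃ b : Q.Cd, (∀ k : Set.Iic (lev z.1), b k = z.2 k) ∧
    Q.mix (lev z.1) b q ∈ meets (X z.1)}, ?_, ?_⟩
  · intro x
    refine mem_fimp.2 fun q1 hq1 hm => ?_
    obtain ⟨r, hr, s, hs, hrs⟩ := hm q1 le_rfl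
    obtain ⟨b, hb, hbm⟩ := hs
    refine ⟨r, hr, down_meets _ _ hbm _ ?_⟩
    intro k
    show r k ≤ if k ≤ lev x then b k else q k
    by_cases hk : k ≤ lev x
    · rw [if_pos hk]
      have h2 : b k = s k := hb ⟨k, hk⟩
      rw [h2]
      exact hrs k
    · rw [if_neg hk]
      exact (hr.trans hq1) k
  · intro x
    refine mem_fimp.2 fun q1 hq1 hm => ?_
    obtain ⟨b', hb', hD⟩ := hqD (lev x) ⟨x, rfl⟩ q1
    have hle : b' ≤ Q.mix (lev x) b' q := by
      intro k
      show b' k ≤ if k ≤ lev x then b' k else q k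
      by_cases hk : k ≤ lev x
      · rw [if_pos hk]
      · rw [if_neg hk]
        exact (hb'.trans hq1) k
    rcases hD with hD | hD
    · refine ⟨b', hb', meets_of_mem ?_⟩
      exact ⟨b', fun k => rfl, hD⟩
    · exfalso
      exact hD b' hle (down_meets _ _ hm _ hb')

theorem powOnto (h1 : S_FUS) (hg : GCH) (Q : Par) (ν : Cardinal.{0}) (hν : ℵ₀ ≤ ν)
    (lev : ν.ord.ToType → I) (hlev : ∀ i, #{x : ν.ord.ToType // lev x = i} ≤ Q.ka i)
    (hR : ∀ x, #(Rs Q (lev x)) ≤ ν) (p : Q.Cd) : p ∈ PowOnto Q.Cd ν (Order.succ ν) := by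
  classical
  have hcard : #(Set (Σ x : ν.ord.ToType, Rs Q (lev x))) ≤ #((Order.succ ν).ord.ToType) := by
    rw [Cardinal.mk_set, Cardinal.mk_ord_toType, ← hg ν hν]
    apply Cardinal.power_le_power_left two_ne_zero
    rw [Cardinal.mk_sigma]
    calc Cardinal.sum (fun x : ν.ord.ToType => #(Rs Q (lev x)))
        ≤ Cardinal.sum (fun _ : ν.ord.ToType => ν) := Cardinal.sum_le_sum _ _ hR
      _ = ν * ν := by rw [Cardinal.sum_const', Cardinal.mk_ord_toType]
      _ = ν := Cardinal.mul_eq_self hν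
  obtain ⟨j⟩ := hcard
  have hsurj : Function.Surjective (Function.invFun j) := Function.invFun_surjective j.injective
  refine mem_fex.2 fun q' _ => ⟨q', le_rfl, fun i => FW Q lev (Function.invFun j i), fun X => ?_⟩
  refine mem_fex.2 fun q'' _ => ?_
  obtain ⟨q, hq, W, h2, h3⟩ := core h1 Q lev hlev X q''
  obtain ⟨i, hi⟩ := hsurj W
  refine ⟨q, hq, i, ?_, ?_⟩
  · show q ∈ Sub (FW Q lev (Function.invFun j i)) X
    rw [hi]
    exact h2
  · show q ∈ Sub X (FW Q lev (Function.invFun j i))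
    rw [hi]
    exact h3

theorem aleph0_le_top (Q : Par) : ℵ₀ ≤ Q.top := by
  have : Nonempty I := by
    rw [← Cardinal.mk_ne_zero_iff, mk_ord_toType]
    exact (aleph0_pos.trans_le (aleph0_le_aleph 1)).ne'
  obtain ⟨j⟩ := this
  exact (Q.unc j).le.trans (Q.ka_le_top j)

theorem fib {J : Type} (A : J → Type) {T : Type} (f : T ↪ Σ j, A j) (i : J) :
    #{x : T // (f x).1 = i} ≤ #(A i) := by
  refine (Cardinal.mk_le_of_injective
    (f := fun x : {x : T // (f x).1 = i} => (⟨f x.1, x.2⟩ : {s : Sigma A // s.1 = i})) ?_).trans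
    (Cardinal.mk_congr (Equiv.sigmaSubtype i)).le
  intro x y h
  exact Subtype.ext (f.injective (congrArg Subtype.val h))

theorem tPOW4 (h1 : S_FUS) (h2 : S_CARD1) : S_POW4 := by
  classical
  intro hg Q p
  have hle : #(Q.top.ord.ToType) ≤ #(Σ i : I, (Q.ka i).ord.ToType) := by
    rw [Cardinal.mk_ord_toType, Cardinal.mk_sigma]
    have h3 : (fun i : I => #((Q.ka i).ord.ToType)) = Q.ka := by
      funext i
      exact Cardinal.mk_ord_toType _
    rw [h3]
    exact Cardinal.iSup_le_sum _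
  obtain ⟨f⟩ := hle
  refine powOnto h1 hg Q Q.top (aleph0_le_top Q) (fun x => (f x).1) ?_ ?_ p
  · intro i
    have h3 := fib (fun i : I => (Q.ka i).ord.ToType) f i
    rwa [Cardinal.mk_ord_toType] at h3
  · intro x
    exact (h2 hg Q _).trans (Q.ka_le_top _)

theorem tPOW3 (h1 : S_FUS) (h2 : S_CARD1) (h6 : S_POW6) : S_POW3 := by
  classical
  intro hg Q j p
  by_cases hj : ∃ i, i < j
  · have hlam : Q.lam j = ⨆ i : Set.Iio j, Q.ka i := by
      unfold Pool.Agent.W931.LC.Par.lam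
      apply max_eq_right
      obtain ⟨i, hi⟩ := hj
      exact (Q.aleph1_lt_ka i).le.trans
        (le_ciSup (f := fun i : Set.Iio j => Q.ka i) (Cardinal.bddAbove_of_small) ⟨i, hi⟩)
    have hle : #((Q.lam j).ord.ToType) ≤ #(Σ i : Set.Iio j, (Q.ka i).ord.ToType) := by
      rw [Cardinal.mk_ord_toType, Cardinal.mk_sigma]
      have h3 : (fun i : Set.Iio j => #((Q.ka i).ord.ToType)) = fun i : Set.Iio j => Q.ka i := by
        funext i
        exact Cardinal.mk_ord_toType _
      rw [h3, hlam]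
      exact Cardinal.iSup_le_sum _
    obtain ⟨f⟩ := hle
    refine powOnto h1 hg Q (Q.lam j) (Q.aleph0_le_lam j) (fun x => (f x).1.1) ?_ ?_ p
    · intro i
      by_cases hi : i < j
      · have h3 := fib (fun i : Set.Iio j => (Q.ka i).ord.ToType) f ⟨i, hi⟩
        rw [Cardinal.mk_ord_toType] at h3
        refine le_trans (le_of_eq ?_) h3
        refine Cardinal.mk_congr (Equiv.subtypeEquivRight ?_)
        intro x
        exact ⟨fun h => Subtype.ext h, fun h => congrArg Subtype.val h⟩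
      · have h3 : IsEmpty {x : (Q.lam j).ord.ToType // (f x).1.1 = i} := by
          refine ⟨fun x => hi ?_⟩
          have h4 := (f x.1).1.2
          rw [x.2] at h4
          exact h4
        rw [Cardinal.mk_eq_zero]
        exact zero_le
    · intro x
      exact (h2 hg Q _).trans (Q.ka_le_lam (f x).1.2)
  · refine h6 hg Q (Q.lam j) (Q.aleph0_le_lam j) ?_ p
    intro j'
    have h3 : Q.lam j = ℵ₁ := by
      unfold Pool.Agent.W931.LC.Par.lam
      apply max_eq_left
      apply ciSup_le'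
      rintro ⟨i, hi⟩
      exact absurd ⟨i, hi⟩ hj
    rw [h3]
    exact (Q.lam_ge j').trans_lt (Q.lam_lt_mu j')

end Pool.Agent.W918.LC
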